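import Pool.Agent.Helper63.Sey4.Goals

/-!
# Packet SEY4-MAIN
-/

namespace Pool.Agent.Helper26.Sey4

open Finset Pool.Agent.Helper63.Sey4

theorem goalMAIN : GoalUNITS → GoalSLOT → GoalFILL → GoalPLACE → GoalORDER → GoalMAIN := by
  classical
  intro hU hS hF hP hO r V _ _ G _ f hn hdeg hcl hsz
  set n : ℕ := Fintype.card V with hndef
  obtain ⟨s, hsr⟩ : ∃ s, s = r + 1 := ⟨_, rfl⟩
  obtain ⟨Δ, hΔdef⟩ : ∃ Δ, Δ = n / s := ⟨_, rfl⟩
  obtain ⟨D, hDdef⟩ : ∃ D, D = 2 * (Δ + 1) / 10 ^ 6 := ⟨_, rfl⟩
  have hs1 : 1 ≤ s := by omega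
  have hΔM : 10 ^ 6 ≤ Δ := by
    rw [hΔdef, Nat.le_div_iff_mul_le (by omega), hsr]
    exact hn
  have hsΔ : s * Δ ≤ n := by rw [hΔdef]; exact Nat.mul_div_le n s
  have hnlt : n < s * (Δ + 1) := by rw [hΔdef]; exact Nat.lt_mul_div_succ n (by omega)
  set H : SimpleGraph V := Gᶜ with hH
  set F : V → ℕ := fun v => (f v).val with hFdef
  have hFeq : ∀ u v, F u = F v ↔ f u = f v := fun u v => by
    simp only [hFdef]
    exact ⟨fun h => Fin.ext h, fun h => by rw [h]⟩
  -- the counts
  let a : V → ℕ := fun v => (univ.filter (fun u => G.Adj v u ∧ f u = f v)).card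
  let b : V → ℕ := fun v => (univ.filter (fun u => H.Adj v u ∧ f u = f v)).card
  let c : V → ℕ := fun v => (univ.filter (fun u => H.Adj v u ∧ ¬ f u = f v)).card
  let m : V → ℕ := fun v => (univ.filter (fun u => f u = f v)).card
  have hHadj : ∀ u v, H.Adj u v ↔ u ≠ v ∧ ¬ G.Adj u v := fun u v => by
    rw [hH, SimpleGraph.compl_adj]
  have hm : ∀ v, m v = 1 + a v + b v := by
    intro v
    have h1 : (univ.filter (fun u => f u = f v)) =
        insert v ((univ.filter (fun u => G.Adj v u ∧ f u = f v)) ∪
          (univ.filter (fun u => H.Adj v u ∧ f u = f v))) := by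
      ext u
      simp only [mem_filter, mem_univ, true_and, mem_insert, mem_union]
      constructor
      · intro h
        by_cases huv : u = v
        · exact Or.inl huv
        · right
          by_cases hg : G.Adj v u
          · exact Or.inl ⟨hg, h⟩
          · exact Or.inr ⟨(hHadj v u).2 ⟨fun h => huv h.symm, hg⟩, h⟩
      · rintro (h | ⟨_, h⟩ | ⟨_, h⟩)
        · rw [h]
        · exact h
        · exact h
    show (univ.filter (fun u => f u = f v)).card = _
    rw [h1, card_insert_of_notMem, card_union_of_disjoint]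
    · show _ = 1 + (univ.filter (fun u => G.Adj v u ∧ f u = f v)).card +
        (univ.filter (fun u => H.Adj v u ∧ f u = f v)).card
      omega
    · rw [Finset.disjoint_left]
      intro u hu hu'
      simp only [mem_filter, mem_univ, true_and] at hu hu'
      exact ((hHadj v u).1 hu'.1).2 hu.1
    · simp only [mem_filter, mem_univ, true_and, mem_union, not_or, not_and]
      constructor
      · intro h
        exact absurd h (G.irrefl)
      · intro h
        exact absurd h (H.irrefl)
  have hd : ∀ v, b v + c v + G.degree v + 1 = n := by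
    intro v
    have h1 : (univ : Finset V) =
        insert v ((univ.filter (fun u => G.Adj v u)) ∪
          ((univ.filter (fun u => H.Adj v u ∧ f u = f v)) ∪
          (univ.filter (fun u => H.Adj v u ∧ ¬ f u = f v)))) := by
      ext u
      simp only [mem_filter, mem_univ, true_and, mem_insert, mem_union, true_iff]
      by_cases huv : u = v
      · exact Or.inl huv
      · right
        by_cases hg : G.Adj v u
        · exact Or.inl hg
        · right
          have hh : H.Adj v u := (hHadj v u).2 ⟨fun h => huv h.symm, hg⟩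
          by_cases hf : f u = f v
          · exact Or.inl ⟨hh, hf⟩
          · exact Or.inr ⟨hh, hf⟩
    have h2 : (univ : Finset V).card = n := by rw [hndef, Finset.card_univ]
    rw [h1, card_insert_of_notMem, card_union_of_disjoint, card_union_of_disjoint] at h2
    · have h3 : (univ.filter (fun u => G.Adj v u)).card = G.degree v := by
        rw [← SimpleGraph.card_neighborFinset_eq_degree]
        congr 1
        ext u
        simp
      rw [h3] at h2
      show (univ.filter (fun u => H.Adj v u ∧ f u = f v)).card +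
        (univ.filter (fun u => H.Adj v u ∧ ¬ f u = f v)).card + G.degree v + 1 = n
      omega
    · rw [Finset.disjoint_left]
      intro u hu hu'
      simp only [mem_filter, mem_univ, true_and] at hu hu'
      exact hu'.2 hu.2
    · rw [Finset.disjoint_left]
      intro u hu hu'
      simp only [mem_filter, mem_univ, true_and, mem_union] at hu hu'
      rcases hu' with h | h
      · exact ((hHadj v u).1 h.1).2 hu
      · exact ((hHadj v u).1 h.1).2 hu
    · simp only [mem_filter, mem_univ, true_and, mem_union, not_or, not_and]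
      refine ⟨?_, ?_, ?_⟩
      · exact G.irrefl
      · intro h
        exact absurd h (H.irrefl)
      · intro h
        exact absurd h (H.irrefl)
  -- degrees of `H`
  have hδ : ∀ v, n ≤ G.degree v + Δ := by
    intro v
    have h1 : G.minDegree ≤ G.degree v := G.minDegree_le_degree v
    have h2 : s * n ≤ s * G.degree v + n := by
      have h3 : s * n = r * n + n := by rw [hsr]; ring
      have h4 : r * n ≤ s * G.degree v := by
        calc r * n ≤ (r + 1) * G.minDegree := hdeg
          _ ≤ (r + 1) * G.degree v := Nat.mul_le_mul_left _ h1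
          _ = s * G.degree v := by rw [hsr]
      omega
    by_contra hcon
    push Not at hcon
    have h5 : s * (G.degree v + Δ + 1) ≤ s * n := Nat.mul_le_mul_left _ hcon
    have h6 : s * (G.degree v + Δ + 1) = s * G.degree v + s * (Δ + 1) := by ring
    omega
  have hbc : ∀ v, b v + c v + 1 ≤ Δ := by
    intro v
    have := hδ v
    have := hd v
    omega
  -- bounds
  have ha : ∀ v, 10 ^ 6 * a v ≤ Δ := by
    intro v
    have h1 : 10 ^ 6 * (r + 1) * a v ≤ n := hcl v
    by_contra hcon
    push Not at hcon
    have h2 : s * (Δ + 1) ≤ s * (10 ^ 6 * a v) := Nat.mul_le_mul_left _ hcon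
    have h3 : s * (10 ^ 6 * a v) = 10 ^ 6 * (r + 1) * a v := by rw [hsr]; ring
    omega
  have hni : ∀ i : Fin (r + 1), (10 ^ 6 - 1) * Δ ≤
      10 ^ 6 * (univ.filter (fun v => f v = i)).card := by
    intro i
    have h1 := hsz i
    have h2 : s * ((10 ^ 6 - 1) * Δ) ≤ s * (10 ^ 6 * (univ.filter (fun v => f v = i)).card) := by
      calc s * ((10 ^ 6 - 1) * Δ) = (10 ^ 6 - 1) * (s * Δ) := by ring
        _ ≤ (10 ^ 6 - 1) * n := Nat.mul_le_mul_left _ hsΔ
        _ ≤ 10 ^ 6 * (r + 1) * (univ.filter (fun v => f v = i)).card := h1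
        _ = s * (10 ^ 6 * (univ.filter (fun v => f v = i)).card) := by rw [hsr]; ring
    exact Nat.le_of_mul_le_mul_left h2 (by omega)
  have hcard : ∀ (p : V → Prop), Nat.card {u // p u} = (univ.filter p).card := by
    intro p
    rw [Nat.card_eq_fintype_card, Fintype.card_subtype]
  have hmv : ∀ v, (10 ^ 6 - 1) * Δ ≤ 10 ^ 6 * m v := fun v => hni (f v)
  have ha' : ∀ v, Nat.card {u // u ≠ v ∧ F u = F v ∧ ¬ H.Adj v u} = a v := by
    intro v
    rw [hcard]
    show _ = (univ.filter (fun u => G.Adj v u ∧ f u = f v)).card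
    congr 1
    ext u
    simp only [mem_filter, mem_univ, true_and]
    rw [hFeq, hHadj]
    constructor
    · rintro ⟨h1, h2, h3⟩
      refine ⟨?_, h2⟩
      by_contra h4
      exact h3 ⟨fun h => h1 h.symm, h4⟩
    · rintro ⟨h1, h2⟩
      exact ⟨fun h => G.irrefl (h ▸ h1), h2, fun h => h.2 h1⟩
  have hc' : ∀ v, Nat.card {u // F u ≠ F v ∧ H.Adj v u} = c v := by
    intro v
    rw [hcard]
    show _ = (univ.filter (fun u => H.Adj v u ∧ ¬ f u = f v)).card
    congr 1
    ext u
    simp only [mem_filter, mem_univ, true_and]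
    rw [ne_eq, hFeq]
    exact and_comm
  have hm' : ∀ v, Nat.card {u // F u = F v} = m v := by
    intro v
    rw [hcard]
    show _ = (univ.filter (fun u => f u = f v)).card
    congr 1
    ext u
    simp only [mem_filter, mem_univ, true_and]
    exact hFeq u v
  have hi' : ∀ i (hi : i < s), Nat.card {v // F v = i} =
      (univ.filter (fun v => f v = (⟨i, by omega⟩ : Fin (r + 1)))).card := by
    intro i hi
    rw [hcard]
    congr 1
    ext u
    simp only [mem_filter, mem_univ, true_and, hFdef, Fin.ext_iff]
  have hset : Setting V H F s Δ D := by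
    refine ⟨hs1, ?_, ?_, ?_, ?_, ?_, ?_⟩
    · omega
    · intro v
      have := (f v).isLt
      simp only [hFdef]
      omega
    · intro v
      rw [ha']
      have := ha v
      omega
    · intro v
      rw [hc']
      have := ha v
      have := hmv v
      have := hm v
      have := hbc v
      omega
    · intro i hi
      rw [hi' i hi]
      have := hni ⟨i, by omega⟩
      omega
    · intro i hi
      rw [hi' i hi]
      by_cases hne : (univ.filter (fun v => f v = (⟨i, by omega⟩ : Fin (r + 1)))).Nonempty
      · obtain ⟨v, hv⟩ := hne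
        simp only [mem_filter, mem_univ, true_and] at hv
        have h1 : (univ.filter (fun v => f v = (⟨i, by omega⟩ : Fin (r + 1)))).card = m v := by
          show _ = (univ.filter (fun u => f u = f v)).card
          rw [hv]
        rw [h1]
        have := ha v
        have := hm v
        have := hbc v
        omega
      · rw [Finset.not_nonempty_iff_eq_empty] at hne
        rw [hne, Finset.card_empty]
        omega
  obtain ⟨E, _, pos, neg, z, hunits⟩ := hU V H F s Δ D hset hsΔ (by
    intro v
    rw [hm', ha']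
    have := hm v
    have := hbc v
    omega)
  obtain ⟨τ, hτ1, hτ2, hτ3, hτ4⟩ := hS V H F s Δ D E pos neg z hset hunits
  obtain ⟨row, hrow⟩ := hF V H F s Δ D E pos neg z τ hset hunits hτ1 hτ2 hτ3 hτ4
  obtain ⟨pl, fl, h1, h2, h3, h4⟩ := hP V H F s Δ D E pos neg z τ row hset hunits hτ1 hτ2 hrow
  obtain ⟨σ, hσ⟩ := hO V H s Δ row pl fl hs1 (by omega)
    (fun v => ⟨hrow.hlt v, (h1 v).1, (h1 v).2⟩) h2 h3 h4
  refine ⟨σ, ?_⟩
  intro i k hik hlt
  have h5 := hσ i k hik (by
    have : (k.val + n - i.val) % n ≤ r := hlt
    show (k.val + n - i.val) % n < s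
    omega)
  rw [hHadj] at h5
  by_contra h6
  exact h5 ⟨fun h => hik (σ.injective h).symm, h6⟩

end Pool.Agent.Helper26.Sey4
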